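import Pool.Agent.W682.BQ.Stm

/-! Project BQ: the pointwise certificate. -/

set_option autoImplicit false

namespace Pool.Agent.W215.BQ.Pcb

open MeasureTheory Set Filter Topology
open Pool.Agent.W488.IW Pool.Agent.W488.IX Pool.Agent.W682.BQ
open Pool.Agent.W360.BQ (Cf Vg QCF S_FLOWF S_NULLF)

lemma XX_pos (ε : ℝ) (hε : 0 < ε) (a : ℂ) : 0 < XX ε a := by
  unfold XX
  have := norm_nonneg a
  positivity

lemma XX_sq (ε : ℝ) (a : ℂ) : XX ε a ^ 2 = ‖a‖ ^ 2 + ε ^ 2 := by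
  unfold XX
  exact Real.sq_sqrt (by positivity)

lemma fp_eq (A T l h ρ ζ k ξ l1 ν ϑ n P Q R : ℝ) :
    FpG A T l h (h + ρ) (ζ - h) (ρ - h) ρ (1 / 2 * (1 - T ^ 2) * (l * ξ + l1 + k))
      (1 / 2 * (1 - T ^ 2) * (k - 2 * l * ζ)) ((1 - T ^ 2) * (l * ξ)) (-(l * ζ)) (-ζ) (-(2 * ν))
      ϑ n P Q R = MB A T l k ρ ζ ξ ν l1 ϑ n P Q R := by
  unfold FpG MB
  ring

lemma fm_eq (A T l h ρ ζ k ξ l1 ν ϑ n P Q R : ℝ) :
    FmG A T l h (h + ρ) (ζ - h) (ρ - h) ρ (1 / 2 * (1 - T ^ 2) * (l * ξ + l1 + k))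
      (1 / 2 * (1 - T ^ 2) * (k - 2 * l * ζ)) ((1 - T ^ 2) * (l * ξ)) (-(l * ζ)) (-ζ) (-(2 * ν))
      ϑ n P Q R = MB A (-T) l k ρ ζ ξ ν l1 ϑ n P (-Q) R := by
  unfold FmG MB
  ring

theorem main (h1 : S_DIVG) (h2 : S_OMG) (h3 : S_ROTG) (hJ : S_JB) (hA : S_ALGB) (hB : S_BNDB) :
    S_PCB := by
  intro κ hκ ϑ hϑ
  obtain ⟨K, hK, hK2⟩ := hB κ hκ
  obtain ⟨δ0, C, hδ0, hδ1, hC, hM⟩ := hA K ϑ hK hϑ
  obtain ⟨ε1, hε1, hε2, hBd⟩ := hK2 δ0 C hδ0 hδ1 hC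
  refine ⟨δ0, hδ0, ε1, hε1, ?_⟩
  intro ε hε hε' l hl F p q r
  obtain ⟨a, b⟩ := F
  have hX := XX_pos ε hε a
  have hY := XX_pos ε hε b
  have hS : 0 < XX ε a + XX ε b := by positivity
  have hev : ∀ᶠ z : ℝ × ℝ in 𝓝 (XX ε a, XX ε b), HasFDerivAt (fun z : ℝ × ℝ => fI κ z.1 z.2)
      (lin (z.1 * hh1 κ (z.1 + z.2)) (om1 κ (z.1 + z.2) - z.2 * hh1 κ (z.1 + z.2))) z := by
    have ho : IsOpen {z : ℝ × ℝ | 0 < z.1 ∧ 0 < z.2} :=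
      (isOpen_lt continuous_const continuous_fst).inter
        (isOpen_lt continuous_const continuous_snd)
    filter_upwards [ho.mem_nhds (show (XX ε a, XX ε b) ∈ {z : ℝ × ℝ | 0 < z.1 ∧ 0 < z.2} from
      ⟨hX, hY⟩)] with z hz
    exact (hJ κ l ε hκ hl z.1 z.2 ε hz.1 hz.2).1
  obtain ⟨-, jx, jy, jE, jG⟩ := hJ κ l ε hκ hl (XX ε a) (XX ε b) ε hX hY
  obtain ⟨-, hd2⟩ := h1 (fI κ) (fun x y => x * hh1 κ (x + y))
    (fun x y => om1 κ (x + y) - y * hh1 κ (x + y)) ε ϑ (fI κ ε ε) a b _ _ _ hε hev jx jy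
  obtain ⟨⟨-, he2⟩, -⟩ := h2 (PsE κ l ε) ε ϑ a b _ _ hε jE
  obtain ⟨-, -, hg2⟩ := h2 (PsG κ l) ε ϑ a b _ _ hε jG
  have e1 := hd2 p q r (Vg (mB l ε) (nB κ l ε δ0) (a, b) p q r)
  have e2 := he2 p q r
  have e3 := hg2 p q r
  have e4 : Vg (mB l ε) (nB κ l ε δ0) (a, b) p q r = (nB κ l ε δ0 (a, b) : ℝ) * q
      + (l (XX ε a) : ℝ) * ((starRingEnd ℂ) a * b / ((XX ε a * XX ε b : ℝ) : ℂ)) * p
      + (starRingEnd ℂ) ((l (XX ε a) : ℝ) * ((starRingEnd ℂ) a * b /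
        ((XX ε a * XX ε b : ℝ) : ℂ))) * r := by
    unfold Vg mB ss
    rfl
  have e1' : DIV (wB κ ε ϑ) (a, b) p q r (Vg (mB l ε) (nB κ l ε δ0) (a, b) p q r) = _ := e1
  have e2' : OMa (eB κ l ε ϑ) (a, b) p q r = _ := e2
  have e3' : OMb (gB κ l ε ϑ) (a, b) p q r = _ := e3
  rw [e1', e2', e3', e4]
  obtain ⟨P, Q, R, P', Q', R', hPQ⟩ := h3 (XX ε a) (XX ε b) (l (XX ε a))
    (XX ε a * hh1 κ (XX ε a + XX ε b) / XX ε a)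
    (hh1 κ (XX ε a + XX ε b) + XX ε a * κ (XX ε a + XX ε b) / (XX ε a + XX ε b))
    ((om1 κ (XX ε a + XX ε b) - XX ε b * hh1 κ (XX ε a + XX ε b)) / XX ε b)
    (XX ε a * κ (XX ε a + XX ε b) / (XX ε a + XX ε b) - hh1 κ (XX ε a + XX ε b))
    (XX ε a * κ (XX ε a + XX ε b) / (XX ε a + XX ε b))
    (ε ^ 2 / (2 * XX ε b ^ 2) * (l (XX ε a) * om1 κ (XX ε a + XX ε b)
      + deriv l (XX ε a) * XX ε a * om1 κ (XX ε a + XX ε b)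
      + XX ε a * κ (XX ε a + XX ε b)) / XX ε a)
    (XX ε a * ε ^ 2 * (κ (XX ε a + XX ε b) / (2 * XX ε b ^ 2)
      - l (XX ε a) * om1 κ (XX ε a + XX ε b) / XX ε b ^ 3) / XX ε a)
    (2 * PsE κ l ε (XX ε a) (XX ε b) / XX ε a ^ 2)
    (-(l (XX ε a) * om1 κ (XX ε a + XX ε b)) / XX ε b)
    (-om1 κ (XX ε a + XX ε b) / XX ε b)
    (2 * PsG κ l (XX ε a) (XX ε b) / XX ε b ^ 2) ϑ (nB κ l ε δ0 (a, b)) a b p q r hX hY
  have hPQ' := hPQ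
  have hb := hBd ε hε hε' l hl ‖a‖ ‖b‖ (norm_nonneg _) (norm_nonneg _) (XX ε a) (XX ε b) rfl rfl
  have hMM := hM ε _ _ _ _ _ _ _ _ _ _ _ hε (by linarith) hb
  have hn : nB κ l ε δ0 (a, b) = 2 + 4 * (δ0 * XX ε b / (1 + XX ε b))
      + n1B κ l ε (XX ε a) (XX ε b) := rfl
  have hT : 1 - (‖b‖ / XX ε b) ^ 2 = ε ^ 2 / XX ε b ^ 2 := by
    have := XX_sq ε b
    rw [div_pow, eq_div_iff (by positivity), sub_mul, div_mul_cancel₀ _ (by positivity)]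
    linarith
  have c1 : XX ε a * hh1 κ (XX ε a + XX ε b) / XX ε a = hh1 κ (XX ε a + XX ε b) := by
    field_simp
  have c2 : (om1 κ (XX ε a + XX ε b) - XX ε b * hh1 κ (XX ε a + XX ε b)) / XX ε b
      = om1 κ (XX ε a + XX ε b) / XX ε b - hh1 κ (XX ε a + XX ε b) := by
    field_simp
  have c3 : ε ^ 2 / (2 * XX ε b ^ 2) * (l (XX ε a) * om1 κ (XX ε a + XX ε b)
      + deriv l (XX ε a) * XX ε a * om1 κ (XX ε a + XX ε b)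
      + XX ε a * κ (XX ε a + XX ε b)) / XX ε a
      = 1 / 2 * (1 - (‖b‖ / XX ε b) ^ 2) * (l (XX ε a) * (om1 κ (XX ε a + XX ε b) / XX ε a)
        + deriv l (XX ε a) * om1 κ (XX ε a + XX ε b) + κ (XX ε a + XX ε b)) := by
    rw [hT]
    field_simp
  have c4 : XX ε a * ε ^ 2 * (κ (XX ε a + XX ε b) / (2 * XX ε b ^ 2)
      - l (XX ε a) * om1 κ (XX ε a + XX ε b) / XX ε b ^ 3) / XX ε a
      = 1 / 2 * (1 - (‖b‖ / XX ε b) ^ 2) * (κ (XX ε a + XX ε b)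
        - 2 * l (XX ε a) * (om1 κ (XX ε a + XX ε b) / XX ε b)) := by
    rw [hT]
    field_simp
  have c5 : 2 * PsE κ l ε (XX ε a) (XX ε b) / XX ε a ^ 2
      = (1 - (‖b‖ / XX ε b) ^ 2) * (l (XX ε a) * (om1 κ (XX ε a + XX ε b) / XX ε a)) := by
    rw [hT]
    unfold PsE
    field_simp
  have c6 : -(l (XX ε a) * om1 κ (XX ε a + XX ε b)) / XX ε b
      = -(l (XX ε a) * (om1 κ (XX ε a + XX ε b) / XX ε b)) := by ring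
  have c7 : -om1 κ (XX ε a + XX ε b) / XX ε b = -(om1 κ (XX ε a + XX ε b) / XX ε b) := by ring
  have c8 : 2 * PsG κ l (XX ε a) (XX ε b) / XX ε b ^ 2
      = -(2 * (Omc κ l (XX ε a) (XX ε b) / XX ε b ^ 2)) := by
    unfold PsG
    ring
  rw [hn, c1, c2, c3, c4, c5, c6, c7, c8, fp_eq, fm_eq] at hPQ
  have hfin := add_nonneg (hMM P Q R).1 (hMM P' (-Q') R').2
  rw [← hPQ] at hfin
  rw [hn, c3, c4, c5, c6, c7, c8]
  simp only [c1, c2]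
  exact hfin

end Pool.Agent.W215.BQ.Pcb
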